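import Pool.Agent.H44.MS.Basics
import Pool.Agent.H44.MS.Targets

/-!
# Logarithmic sums over rough numbers in an interval
-/

set_option autoImplicit false

namespace Pool.Agent.H89.MS

open Finset Real Pool.Agent.H44.MS

/-- Comparison of the powers. -/
theorem rpow_cmp {a b v : ℝ} (ha : 0 < a) (hab : a ≤ b) (hb : b ≤ 4 * a) (hv2 : v ≤ 3 / 2) :
    b ^ (v - 1) ≤ 4 * a ^ (v - 1) := by
  have hb0 : 0 < b := lt_of_lt_of_le ha hab
  have hp : 0 ≤ a ^ (v - 1) := Real.rpow_nonneg ha.le _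
  rcases le_total 1 v with h | h
  · have h1 : b ^ (v - 1) ≤ (4 * a) ^ (v - 1) :=
      Real.rpow_le_rpow hb0.le hb (by linarith)
    have h2 : (4 * a) ^ (v - 1) = 4 ^ (v - 1) * a ^ (v - 1) :=
      Real.mul_rpow (by norm_num) ha.le
    have h3 : (4 : ℝ) ^ (v - 1) ≤ 4 ^ (1 : ℝ) :=
      Real.rpow_le_rpow_of_exponent_le (by norm_num) (by linarith)
    rw [Real.rpow_one] at h3
    rw [h2] at h1
    exact h1.trans (mul_le_mul_of_nonneg_right h3 hp)
  · have h1 : b ^ (v - 1) ≤ a ^ (v - 1) :=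
      Real.rpow_le_rpow_of_nonpos ha hab (by linarith)
    linarith

/-- One dyadic block. -/
theorem block {C v : ℝ} {z x y : ℕ} (hv1 : 1 / 2 ≤ v) (hv2 : v ≤ 3 / 2) (hz : 2 ≤ z)
    (hzx : z ≤ x) (hxy : x ≤ y) (hC : 0 < C)
    (hlog : Real.log ((2 * y : ℕ) : ℝ) ≤ 4 * Real.log x)
    (hRV : ∑ n ∈ Icc 1 (2 * y), ic (Rough z n) * v ^ Om z n ≤
      C * ((2 * y : ℕ) : ℝ) / Real.log z * (Real.log ((2 * y : ℕ) : ℝ) / Real.log z) ^ (v - 1)) :
    ∑ n ∈ Ioc y (2 * y), ic (Rough z n) * v ^ Om z n / n ≤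
      8 * C / Real.log z * (Real.log x / Real.log z) ^ (v - 1) := by
  have hv0 : 0 ≤ v := by linarith
  have hy0 : (0 : ℝ) < y := by
    have : 0 < y := by omega
    exact_mod_cast this
  have hlz : 0 < Real.log z := Real.log_pos (by exact_mod_cast (by omega : 1 < z))
  have hlx : 0 < Real.log x := Real.log_pos (by exact_mod_cast (by omega : 1 < x))
  have h1 : ∑ n ∈ Ioc y (2 * y), ic (Rough z n) * v ^ Om z n / n ≤
      ∑ n ∈ Ioc y (2 * y), ic (Rough z n) * v ^ Om z n / y := by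
    refine Finset.sum_le_sum fun n hn => ?_
    have hn' : (y : ℝ) ≤ n := by
      have := (Finset.mem_Ioc.1 hn).1
      exact_mod_cast this.le
    exact div_le_div_of_nonneg_left (mul_nonneg (ic_nonneg _) (pow_nonneg hv0 _)) hy0 hn'
  have h2 : ∑ n ∈ Ioc y (2 * y), ic (Rough z n) * v ^ Om z n / y ≤
      (∑ n ∈ Icc 1 (2 * y), ic (Rough z n) * v ^ Om z n) / y := by
    rw [← Finset.sum_div]
    refine div_le_div_of_nonneg_right ?_ hy0.le
    refine Finset.sum_le_sum_of_subset_of_nonneg ?_ fun n _ _ =>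
      mul_nonneg (ic_nonneg _) (pow_nonneg hv0 _)
    intro n hn
    rw [Finset.mem_Ioc] at hn
    rw [Finset.mem_Icc]
    omega
  have h3 : (∑ n ∈ Icc 1 (2 * y), ic (Rough z n) * v ^ Om z n) / y ≤
      2 * C / Real.log z * (Real.log ((2 * y : ℕ) : ℝ) / Real.log z) ^ (v - 1) := by
    rw [div_le_iff₀ hy0]
    refine hRV.trans (le_of_eq ?_)
    push_cast
    ring
  have hcmp : (Real.log ((2 * y : ℕ) : ℝ) / Real.log z) ^ (v - 1) ≤
      4 * (Real.log x / Real.log z) ^ (v - 1) := by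
    refine rpow_cmp (div_pos hlx hlz) ?_ ?_ hv2
    · refine div_le_div_of_nonneg_right ?_ hlz.le
      refine Real.log_le_log (by exact_mod_cast (by omega : 0 < x)) ?_
      exact_mod_cast (by omega : x ≤ 2 * y)
    · rw [← mul_div_assoc]
      exact div_le_div_of_nonneg_right hlog hlz.le
  have h4 : 2 * C / Real.log z * (Real.log ((2 * y : ℕ) : ℝ) / Real.log z) ^ (v - 1) ≤
      2 * C / Real.log z * (4 * (Real.log x / Real.log z) ^ (v - 1)) :=
    mul_le_mul_of_nonneg_left hcmp (by positivity)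
  refine h1.trans (h2.trans (h3.trans (h4.trans (le_of_eq ?_))))
  ring

/-- Splitting into dyadic blocks. -/
theorem dyadic (f : ℕ → ℝ) (x : ℕ) (B : ℝ) (K : ℕ)
    (h : ∀ k, k < K → ∑ n ∈ Ioc (2 ^ k * x) (2 * (2 ^ k * x)), f n ≤ B) :
    ∑ n ∈ Ioc x (2 ^ K * x), f n ≤ K * B := by
  induction K with
  | zero => simp
  | succ K ih =>
    have h0 := ih fun k hk => h k (by omega)
    have h1 := h K (by omega)
    have hle1 : x ≤ 2 ^ K * x := Nat.le_mul_of_pos_left _ (by positivity)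
    have hle2 : 2 ^ K * x ≤ 2 ^ (K + 1) * x := by
      rw [pow_succ]; nlinarith [Nat.zero_le (2 ^ K * x)]
    have he : 2 * (2 ^ K * x) = 2 ^ (K + 1) * x := by rw [pow_succ]; ring
    rw [he] at h1
    have hs := Finset.sum_Ioc_consecutive f hle1 hle2
    rw [← hs]
    push_cast
    linarith

/-- Logarithmic sums over rough numbers in an interval. -/
theorem pf_RL (h : T_RV) : T_RL := by
  obtain ⟨C, hC, hRV⟩ := h
  have hl2 : 0 < Real.log 2 := Real.log_pos (by norm_num)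
  refine ⟨8 * C / Real.log 2, by positivity, ?_⟩
  intro v hv1 hv2 z x X hz hzx hxX hlog
  have hv0 : 0 ≤ v := by linarith
  have hx0 : 0 < x := by omega
  have hxR : (0 : ℝ) < x := by exact_mod_cast hx0
  have hXR : (0 : ℝ) < X := by exact_mod_cast (by omega : 0 < X)
  have hlz : 0 < Real.log z := Real.log_pos (by exact_mod_cast (by omega : 1 < z))
  have hlx : 0 < Real.log x := Real.log_pos (by exact_mod_cast (by omega : 1 < x))
  set q : ℕ := X / x with hq
  have hq1 : 1 ≤ q := (Nat.one_le_div_iff hx0).2 hxX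
  set K : ℕ := Nat.log 2 q with hK
  have hK1 : 2 ^ K ≤ q := Nat.pow_log_le_self 2 (by omega)
  have hK2 : q < 2 ^ (K + 1) := Nat.lt_pow_succ_log_self (by norm_num) q
  have hX1 : X < 2 ^ (K + 1) * x := (Nat.div_lt_iff_lt_mul hx0).1 hK2
  have hX2 : 2 ^ K * x ≤ X := (Nat.le_div_iff_mul_le hx0).1 hK1
  set A : ℝ := (Real.log x / Real.log z) ^ (v - 1) with hA
  have hA0 : 0 ≤ A := Real.rpow_nonneg (div_pos hlx hlz).le _
  have hblock : ∀ k, k < K + 1 → ∑ n ∈ Ioc (2 ^ k * x) (2 * (2 ^ k * x)),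
      ic (Rough z n) * v ^ Om z n / n ≤ 8 * C / Real.log z * A := by
    intro k hk
    have hpk : 2 ^ k ≤ 2 ^ K := Nat.pow_le_pow_right (by norm_num) (by omega)
    have hpk0 : 0 < 2 ^ k := by positivity
    have hxy : x ≤ 2 ^ k * x := Nat.le_mul_of_pos_left _ hpk0
    have hyX : 2 ^ k * x ≤ X := (Nat.mul_le_mul_right x hpk).trans hX2
    refine block hv1 hv2 hz hzx hxy hC ?_ (hRV v hv1 hv2 z _ hz (by omega))
    have e1 : Real.log ((2 * (2 ^ k * x) : ℕ) : ℝ) ≤ Real.log ((2 * X : ℕ) : ℝ) := by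
      refine Real.log_le_log (by exact_mod_cast (by positivity : 0 < 2 * (2 ^ k * x))) ?_
      exact_mod_cast (by omega : 2 * (2 ^ k * x) ≤ 2 * X)
    have e2 : Real.log ((2 * X : ℕ) : ℝ) = Real.log 2 + Real.log X := by
      push_cast
      exact Real.log_mul (by norm_num) hXR.ne'
    have e3 : Real.log 2 ≤ Real.log x :=
      Real.log_le_log (by norm_num) (by exact_mod_cast (by omega : 2 ≤ x))
    linarith
  have hdy := dyadic (fun n => ic (Rough z n) * v ^ Om z n / n) x _ (K + 1) hblock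
  have hsub : ∑ n ∈ Ioc x X, ic (Rough z n) * v ^ Om z n / n ≤
      ∑ n ∈ Ioc x (2 ^ (K + 1) * x), ic (Rough z n) * v ^ Om z n / n := by
    refine Finset.sum_le_sum_of_subset_of_nonneg ?_ fun n _ _ =>
      div_nonneg (mul_nonneg (ic_nonneg _) (pow_nonneg hv0 _)) (Nat.cast_nonneg _)
    exact Finset.Ioc_subset_Ioc_right hX1.le
  refine hsub.trans (hdy.trans ?_)
  -- the number of blocks
  have hKlog : (K : ℝ) * Real.log 2 ≤ Real.log ((X : ℝ) / x) := by
    have e1 : (K : ℝ) * Real.log 2 = Real.log ((2 : ℝ) ^ K) := by rw [Real.log_pow]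
    rw [e1]
    refine Real.log_le_log (by positivity) ?_
    rw [le_div_iff₀ hxR]
    exact_mod_cast hX2
  have hlzl2 : Real.log 2 ≤ Real.log z :=
    Real.log_le_log (by norm_num) (by exact_mod_cast hz)
  have hfin : ((K + 1 : ℕ) : ℝ) * (8 * C / Real.log z) ≤
      8 * C / Real.log 2 * (1 + Real.log ((X : ℝ) / x) / Real.log z) := by
    have e1 : ((K + 1 : ℕ) : ℝ) * (8 * C / Real.log z) =
        8 * C * ((K : ℝ) / Real.log z + 1 / Real.log z) := by
      push_cast
      ring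
    have e2 : 8 * C / Real.log 2 * (1 + Real.log ((X : ℝ) / x) / Real.log z) =
        8 * C * (Real.log ((X : ℝ) / x) / Real.log 2 / Real.log z + 1 / Real.log 2) := by
      field_simp
      ring
    rw [e1, e2]
    refine mul_le_mul_of_nonneg_left (add_le_add ?_ ?_) (by positivity)
    · refine div_le_div_of_nonneg_right ?_ hlz.le
      rw [le_div_iff₀ hl2]
      exact hKlog
    · exact one_div_le_one_div_of_le hl2 hlzl2
  calc ((K + 1 : ℕ) : ℝ) * (8 * C / Real.log z * A)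
      = ((K + 1 : ℕ) : ℝ) * (8 * C / Real.log z) * A := by ring
    _ ≤ _ := mul_le_mul_of_nonneg_right hfin hA0

end Pool.Agent.H89.MS
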